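import Pool.Agent.R905.GB.StrongTwo

/-!
# In positive characteristic the surjectivity (a) for one prime implies (a), (b) and Q2 for all primes

`k` is a finitely generated field of characteristic `p > 0`, `κ` is the (finite) algebraic closure of
`𝔽_p` in `k`, and `G' ⊂ G_k` is the kernel of `G_k → G_κ`. `C : Chow V` are the Chow groups
`C.CH X i = CH_i(X)_ℚ` of the varieties `X : V` over `k`. For each prime `ℓ : Λ` different from `p`, and
`F ℓ = ℚ_ℓ`, `T ℓ : Homology C (F ℓ)` are the spaces `(T ℓ).E X i = H_{2i}(X̄, ℚ_ℓ(i))^{G'}` with the
Frobenius of `κ` and the cycle class maps. So the invariants of the Frobenius are the space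
`H_{2i}(X̄, ℚ_ℓ(i))^{G_k}` of the problem, and `(T ℓ).Surj X i` is the assertion (a) for `X`, `i`, `ℓ`.
For a finite field `k` the group `G'` is trivial.

The multiplicity `(T ℓ).mult X i` of the eigenvalue `1` of the Frobenius on this space is the order of
the pole of `L(X, s)` at `s = i + dim_a(k)`.

The known facts which are used (as properties in the definitions):

* smooth projective varieties of pure dimension (`SmoothProjective`): Poincaré duality, compatible with
  intersection numbers and Frobenius, and the independence of `ℓ` of `mult` (Deligne, Grothendieck); for
  imperfect `k` these may be smooth over a finite purely inseparable extension of `k`;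
* presentations (`ChowPres`, `HomPres`): right exact sequences of Chow groups and of the generalized
  eigenspaces for the eigenvalue `1` in homology, for a closed subvariety of a variety with its
  complement, and for a proper variety `X` with `X₀ → X`, `X₁ → X₀ ×_X X₀` proper and surjective, and
  `X₀`, `X₁` smooth and projective (Deligne: pure sheaves are geometrically semisimple, so that all
  functors in question are exact on the part of weight `0`);
* all varieties can be built in finitely many steps from smooth projective ones (`Built`; de Jong and
  Nagata);
* each finite set of cycles of dimension `i` is supported on a closed subvariety of dimension at most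
  `i` (`HasSupports`).

Theorem. Suppose that for one prime `ℓ` the cycle class map is surjective onto the invariants for all
varieties over `k` and all `i`, i.e. (a) holds for `ℓ`. Then for all primes `ℓ'` different from `p`, all
varieties `X` over `k` and all `i` (with rational coefficients): (a) holds; (b) holds, i.e. `B_i(X)_ℚ`
(the cycles modulo `ℓ'`-adic homological equivalence) is finite dimensional, and
`ℚ_ℓ' ⊗ B_i(X)_ℚ → H_{2i}(X̄, ℚ_ℓ'(i))^{G_k}` is an isomorphism; the eigenvalue `1` is semisimple; the rank
of `B_i(X)` is the multiplicity of the eigenvalue `1`, i.e. Q2 holds.

So in positive characteristic (a) implies (b) and Q2, and it suffices to prove (a) for one prime. This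
is in contrast with the situation for a single smooth projective variety: there (a) is not known to
imply (b) or the semisimplicity. The theorem uses (a) for the open subvarieties: if all algebraic
classes of a smooth projective `X` are supported on `Z`, then the homology of `X ∖ Z` has no algebraic
classes at all, so by (a) it has no invariants, and this is the semisimplicity for `X`. Then the pairing
of intersection numbers gives (b) and the transfer to the other primes, and the general case follows by
comparison of cokernels.
-/

set_option autoImplicit false

namespace Pool.Agent.Results.MP_4776b1_ag.SurjectivityImpliesAll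

open Pool.Agent.R905.GB

theorem result {V Λ : Type} {C : Chow V} {F : Λ → Type} [∀ l, Field (F l)]
    [∀ l, Algebra ℚ (F l)] (T : ∀ l : Λ, Homology C (F l))
    (hB : ∀ X, Built T (SmoothProjective T) X)
    (hS : ∀ l X, SmoothProjective T X → ∀ i, HasSupports (T l) X i) (l : Λ)
    (h : ∀ X i, (T l).Surj X i) (l' : Λ) (X : V) (i : ℤ) : (T l').Strong X i :=
  strong_of_surj hB hS l h l' X i

end Pool.Agent.Results.MP_4776b1_ag.SurjectivityImpliesAll
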